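import Mathlib

section

set_option autoImplicit false

namespace Pool.Agent.MP_5499e5_ag

open MvPolynomial

variable {K : Type*} [Field K] {n : ℕ}

/-- polynomials in `t, x_1 .. x_n`, written as polynomials in `x` over `K[t]` -/
abbrev RR (K : Type*) [Field K] (n : ℕ) := MvPolynomial (Fin n) (Polynomial K)

/-- coefficient of `t^b x^a` -/
noncomputable def cf (f : RR K n) (a : Fin n →₀ ℕ) (b : ℕ) : K := (coeff a f).coeff b

/-- weighted degree at most `D` (weight 1 on `t`, `w` on each `x`) -/
def DegLe (w D : ℕ) (f : RR K n) : Prop := ∀ a b, cf f a b ≠ 0 → b + w * a.degree ≤ D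

/-- weighted order at least `M` -/
def OrdGe (w M : ℕ) (f : RR K n) : Prop := ∀ a b, cf f a b ≠ 0 → M ≤ b + w * a.degree

lemma eq_zero_of_cf {f : RR K n} (h : ∀ a b, cf f a b = 0) : f = 0 := by
  ext a b
  simpa [cf] using h a b

lemma cf_monomial (a a' : Fin n →₀ ℕ) (g : Polynomial K) (b : ℕ) :
    cf (monomial a g : RR K n) a' b = if a = a' then g.coeff b else 0 := by
  unfold cf
  rw [coeff_monomial]
  split_ifs <;> simp

lemma cf_add (f g : RR K n) (a : Fin n →₀ ℕ) (b : ℕ) : cf (f + g) a b = cf f a b + cf g a b := by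
  simp [cf]

/-- the grading homomorphism `t ↦ t u`, `x ↦ x u^w` -/
noncomputable def HH (w : ℕ) : RR K n →+* Polynomial (RR K n) :=
  eval₂Hom (Polynomial.eval₂RingHom (Polynomial.C.comp (C.comp Polynomial.C))
      (Polynomial.C (C Polynomial.X) * Polynomial.X))
    (fun j => Polynomial.C (X j) * Polynomial.X ^ w)

lemma HH_C_monomial (w b : ℕ) (c : K) :
    HH (n := n) w (C (Polynomial.monomial b c)) =
      Polynomial.monomial b (C (Polynomial.monomial b c)) := by
  unfold HH
  rw [eval₂Hom_C, Polynomial.coe_eval₂RingHom, Polynomial.eval₂_monomial, mul_pow,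
    ← Polynomial.C_mul_X_pow_eq_monomial, ← Polynomial.C_mul_X_pow_eq_monomial]
  simp [mul_assoc]

lemma HH_monomial_one (w : ℕ) (a : Fin n →₀ ℕ) :
    HH (K := K) w (monomial a 1) = Polynomial.monomial (w * a.degree) (monomial a 1) := by
  unfold HH
  rw [eval₂Hom_monomial, map_one, one_mul, ← Polynomial.C_mul_X_pow_eq_monomial, monomial_eq,
    C_1, one_mul, Finsupp.prod_fintype _ _ (by simp), Finsupp.prod_fintype _ _ (by simp),
    Finsupp.degree_eq_sum, Finset.mul_sum, map_prod, ← Finset.prod_pow_eq_pow_sum,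
    ← Finset.prod_mul_distrib]
  refine Finset.prod_congr rfl fun j _ => ?_
  rw [mul_pow, ← pow_mul, map_pow]

lemma HH_mono (w b : ℕ) (c : K) (a : Fin n →₀ ℕ) :
    HH w (monomial a (Polynomial.monomial b c) : RR K n) =
      Polynomial.monomial (b + w * a.degree) (monomial a (Polynomial.monomial b c)) := by
  have : (monomial a (Polynomial.monomial b c) : RR K n) =
      C (Polynomial.monomial b c) * monomial a 1 := by
    rw [C_mul_monomial, mul_one]
  rw [this, map_mul, HH_C_monomial, HH_monomial_one, Polynomial.monomial_mul_monomial]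

lemma cf_HH (w : ℕ) (f : RR K n) (k : ℕ) (a : Fin n →₀ ℕ) (b : ℕ) :
    cf ((HH w f).coeff k) a b = if b + w * a.degree = k then cf f a b else 0 := by
  induction f using MvPolynomial.induction_on' with
  | add p q hp hq =>
    rw [map_add, Polynomial.coeff_add, cf_add, hp, hq, cf_add]
    split_ifs <;> simp
  | monomial a' g =>
    induction g using Polynomial.induction_on' with
    | add p q hp hq =>
      rw [map_add, map_add, Polynomial.coeff_add, cf_add, hp, hq, cf_add]
      split_ifs <;> simp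
    | monomial b' c =>
      rw [HH_mono, Polynomial.coeff_monomial]
      by_cases h1 : a' = a
      · subst h1
        by_cases h2 : b' = b
        · subst h2
          split_ifs <;> simp [cf]
        · have h3 : cf (monomial a' (Polynomial.monomial b' c) : RR K n) a' b = 0 := by
            rw [cf_monomial, if_pos rfl, Polynomial.coeff_monomial, if_neg h2]
          rw [h3]
          split_ifs
          all_goals first | exact h3 | simp [cf]
      · have h3 : cf (monomial a' (Polynomial.monomial b' c) : RR K n) a b = 0 := by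
          rw [cf_monomial, if_neg h1]
        rw [h3]
        split_ifs
        all_goals first | exact h3 | simp [cf]

lemma HH_ne_zero (w : ℕ) {f : RR K n} (hf : f ≠ 0) : HH w f ≠ 0 := by
  intro h
  apply hf
  apply eq_zero_of_cf
  intro a b
  have := cf_HH w f (b + w * a.degree) a b
  rw [h, if_pos rfl] at this
  rw [← this]
  simp [cf]

lemma degLe_iff (w D : ℕ) (f : RR K n) : DegLe w D f ↔ (HH w f).natDegree ≤ D := by
  rw [Polynomial.natDegree_le_iff_coeff_eq_zero]
  constructor
  · intro h k hk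
    apply eq_zero_of_cf
    intro a b
    rw [cf_HH]
    split_ifs with h1
    · by_contra h2
      have := h a b h2
      omega
    · rfl
  · intro h a b hab
    by_contra h2
    have h3 := cf_HH w f (b + w * a.degree) a b
    rw [if_pos rfl, h _ (by omega)] at h3
    apply hab
    rw [← h3]
    simp [cf]

lemma ordGe_iff (w M : ℕ) {f : RR K n} (hf : f ≠ 0) :
    OrdGe w M f ↔ M ≤ (HH w f).natTrailingDegree := by
  constructor
  · intro h
    apply Polynomial.le_natTrailingDegree (HH_ne_zero w hf)
    intro k hk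
    apply eq_zero_of_cf
    intro a b
    rw [cf_HH]
    split_ifs with h1
    · by_contra h2
      have := h a b h2
      omega
    · rfl
  · intro h a b hab
    by_contra h2
    have h3 := cf_HH w f (b + w * a.degree) a b
    rw [if_pos rfl, Polynomial.coeff_eq_zero_of_lt_natTrailingDegree (by omega)] at h3
    apply hab
    rw [← h3]
    simp [cf]

/-- dividing by `y` lowers the degree by at least the weight of any monomial of `y` -/
lemma degLe_of_mul {w D : ℕ} {y f : RR K n} (hf : f ≠ 0) (h : DegLe w D (y * f))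
    {a : Fin n →₀ ℕ} {b : ℕ} (hy : cf y a b ≠ 0) :
    b + w * a.degree ≤ D ∧ DegLe w (D - (b + w * a.degree)) f := by
  have hy0 : y ≠ 0 := by
    rintro rfl
    simp [cf] at hy
  rw [degLe_iff, map_mul, Polynomial.natDegree_mul (HH_ne_zero w hy0) (HH_ne_zero w hf)] at h
  have h1 : b + w * a.degree ≤ (HH w y).natDegree :=
    (degLe_iff w _ y).2 le_rfl a b hy
  refine ⟨by omega, ?_⟩
  rw [degLe_iff]
  omega

/-- dividing by `y` lowers the order by at most the weight of any monomial of `y` -/
lemma ordGe_of_mul {w M : ℕ} {y f : RR K n} (hf : f ≠ 0) (h : OrdGe w M (y * f))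
    {a : Fin n →₀ ℕ} {b : ℕ} (hy : cf y a b ≠ 0) :
    OrdGe w (M - (b + w * a.degree)) f := by
  have hy0 : y ≠ 0 := by
    rintro rfl
    simp [cf] at hy
  rw [ordGe_iff w _ (mul_ne_zero hy0 hf), map_mul,
    Polynomial.natTrailingDegree_mul (HH_ne_zero w hy0) (HH_ne_zero w hf)] at h
  have h1 : (HH w y).natTrailingDegree ≤ b + w * a.degree :=
    (ordGe_iff w _ hy0).2 le_rfl a b hy
  rw [ordGe_iff w _ hf]
  omega

/-- substitution `x_0 ↦ β` -/
noncomputable def res (β : Polynomial K) : RR K (n + 1) →ₐ[Polynomial K] RR K n :=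
  aeval (Fin.cons (C β) X : Fin (n + 1) → RR K n)

lemma res_monomial (β : Polynomial K) (a : Fin (n + 1) →₀ ℕ) (g : Polynomial K) :
    res β (monomial a g) = monomial a.tail (g * β ^ (a 0)) := by
  unfold res
  rw [aeval_monomial, Finsupp.prod_fintype _ _ (by simp), Fin.prod_univ_succ, monomial_eq,
    Finsupp.prod_fintype _ _ (by simp)]
  simp [Finsupp.tail_apply, mul_assoc]

lemma degree_eq_tail (a : Fin (n + 1) →₀ ℕ) : a.degree = a 0 + a.tail.degree := by
  rw [Finsupp.degree_eq_sum, Finsupp.degree_eq_sum, Fin.sum_univ_succ]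
  simp [Finsupp.tail_apply]

lemma cf_res {c : K} {k : ℕ} {f : RR K (n + 1)} {a' : Fin n →₀ ℕ} {b' : ℕ}
    (h : cf (res (Polynomial.C c * Polynomial.X ^ k) f) a' b' ≠ 0) :
    ∃ (a : Fin (n + 1) →₀ ℕ) (b : ℕ), cf f a b ≠ 0 ∧ a.tail = a' ∧ b' = b + k * a 0 := by
  rw [f.as_sum, map_sum] at h
  unfold cf at h
  rw [coeff_sum, Polynomial.finsetSum_coeff] at h
  obtain ⟨a, -, ha⟩ := Finset.exists_ne_zero_of_sum_ne_zero h
  rw [res_monomial, coeff_monomial] at ha
  split_ifs at ha with h1
  · rw [mul_pow, ← pow_mul, ← map_pow, mul_left_comm, Polynomial.coeff_C_mul,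
      Polynomial.coeff_mul_X_pow'] at ha
    split_ifs at ha with h2
    · exact ⟨a, b' - k * a 0, right_ne_zero_of_mul ha, h1, by omega⟩
    · simp at ha
  · simp at ha

lemma dvd_of_res {β : Polynomial K} {f : RR K (n + 1)} (h : res β f = 0) :
    (X 0 - C β : RR K (n + 1)) ∣ f := by
  have key : ∀ f : RR K (n + 1), (X 0 - C β : RR K (n + 1)) ∣ f - rename Fin.succ (res β f) := by
    intro f
    induction f using MvPolynomial.induction_on with
    | C a => simp [res]
    | add p q hp hq =>
      have := dvd_add hp hq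
      rw [map_add, map_add]
      convert this using 1
      ring
    | mul_X p j hp =>
      rw [map_mul, map_mul]
      refine Fin.cases ?_ (fun j => ?_) j
      · have h1 : res β (X 0 : RR K (n + 1)) = C β := by simp [res]
        rw [h1, rename_C]
        have : p * X 0 - rename Fin.succ (res β p) * C β =
            p * (X 0 - C β) + (p - rename Fin.succ (res β p)) * C β := by ring
        rw [this]
        exact dvd_add (dvd_mul_left _ _) (hp.mul_right _)
      · have h1 : res β (X j.succ : RR K (n + 1)) = X j := by simp [res]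
        rw [h1, rename_X, ← sub_mul]
        exact hp.mul_right _
  simpa [h] using key f

/-- translation `x_j ↦ x_j + γ_j` -/
noncomputable def tr (γ : Fin n → Polynomial K) : RR K n →ₐ[Polynomial K] RR K n :=
  aeval (fun j => X j + C (γ j))

lemma tr_ne_zero (γ : Fin n → Polynomial K) {f : RR K n} (hf : f ≠ 0) : tr γ f ≠ 0 := by
  intro h
  have : (tr (-γ)).comp (tr γ) = AlgHom.id _ _ := by
    ext1 j
    simp [tr]
  have h2 := congrArg (fun φ => φ f) this
  simp only [AlgHom.comp_apply, h, map_zero, AlgHom.id_apply] at h2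
  exact hf h2.symm

lemma tr_res (γ : Fin n → Polynomial K) (β β' : Polynomial K) (f : RR K (n + 1)) :
    tr γ (res β f) = res (-β') (tr (Fin.cons (β + β') γ : Fin (n + 1) → Polynomial K) f) := by
  have : (tr γ).comp (res β) =
      (res (-β')).comp (tr (Fin.cons (β + β') γ : Fin (n + 1) → Polynomial K)) := by
    ext1 j
    refine Fin.cases ?_ (fun j => ?_) j
    · simp [tr, res]
    · simp [tr, res]
  exact congrArg (fun φ => φ f) this

end Pool.Agent.MP_5499e5_ag

end

section

set_option autoImplicit false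

namespace Pool.Agent.MP_5499e5_ag

open MvPolynomial

/-- along a suitable curve `x = γ(t)`, degree and order compare with ratio `c` -/
def Key (K : Type*) [Field K] (n E s : ℕ) (c : ℝ) : Prop :=
  ∃ γ : Fin n → Polynomial K, ∀ (D M : ℕ) (f : RR K n), f ≠ 0 → DegLe E D f →
    OrdGe s M (tr γ f) → c * E * M ≤ D * s

variable {K : Type*} [Field K]

lemma key_zero {E s : ℕ} {c : ℝ} (h : c * E ≤ s) : Key K 0 E s c := by
  refine ⟨fun j => j.elim0, fun D M f hf hD hM => ?_⟩
  have h1 : tr (K := K) (n := 0) (fun j => j.elim0) = AlgHom.id _ _ := by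
    ext1 j
    exact j.elim0
  rw [h1, AlgHom.id_apply] at hM
  obtain ⟨a, b, hab⟩ : ∃ a b, cf f a b ≠ 0 := by
    by_contra h2
    push Not at h2
    exact hf (eq_zero_of_cf h2)
  have h2 := hD a b hab
  have h3 := hM a b hab
  have h4 : a.degree = 0 := by
    rw [Finsupp.degree_eq_sum]
    simp
  rw [h4] at h2 h3
  have h5 : (M : ℝ) ≤ D := by exact_mod_cast (by omega : M ≤ D)
  have h6 : (0 : ℝ) ≤ M := Nat.cast_nonneg _
  have h7 : (0 : ℝ) ≤ s := Nat.cast_nonneg _
  nlinarith

lemma key_succ {n E e s s' : ℕ} {c : ℝ} (hc : 0 ≤ c) (hE : 1 ≤ E) (he : 1 ≤ e) (hs' : 1 ≤ s')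
    (hs : s' ≤ s) (hce : c * s' ≤ e * s) (hK : Key K n (E * e) s' c) : Key K (n + 1) E s c := by
  obtain ⟨γ, hγ⟩ := hK
  refine ⟨Fin.cons (Polynomial.X ^ (E * e) + Polynomial.X ^ s') γ, fun D => ?_⟩
  induction D using Nat.strong_induction_on with
  | _ D ih =>
  intro M f hf hD hM
  have hspos : (0 : ℝ) < s := by exact_mod_cast (by omega : 0 < s)
  have hs'pos : (0 : ℝ) < s' := by exact_mod_cast (by omega : 0 < s')
  have hepos : (0 : ℝ) < e := by exact_mod_cast (by omega : 0 < e)
  have hEpos : (0 : ℝ) < E := by exact_mod_cast (by omega : 0 < E)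
  by_cases h0 : res (Polynomial.X ^ (E * e)) f = 0
  · obtain ⟨f1, rfl⟩ := dvd_of_res h0
    have hf1 : f1 ≠ 0 := right_ne_zero_of_mul hf
    have hy : cf (X 0 - C (Polynomial.X ^ (E * e)) : RR K (n + 1)) 0 (E * e) ≠ 0 := by
      unfold cf
      rw [coeff_sub, coeff_zero_X, coeff_zero_C, zero_sub, Polynomial.coeff_neg,
        Polynomial.coeff_X_pow_self]
      simp
    obtain ⟨h1, h2⟩ := degLe_of_mul hf1 hD hy
    simp only [map_zero, mul_zero, add_zero] at h1 h2
    rw [map_mul] at hM
    have hy' : cf (tr (Fin.cons (Polynomial.X ^ (E * e) + Polynomial.X ^ s') γ :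
        Fin (n + 1) → Polynomial K) (X 0 - C (Polynomial.X ^ (E * e)) : RR K (n + 1))) 0 s' ≠ 0 := by
      have : tr (Fin.cons (Polynomial.X ^ (E * e) + Polynomial.X ^ s') γ :
          Fin (n + 1) → Polynomial K) (X 0 - C (Polynomial.X ^ (E * e)) : RR K (n + 1)) =
          X 0 + C (Polynomial.X ^ s') := by
        simp [tr]
        ring
      rw [this]
      unfold cf
      rw [coeff_add, coeff_zero_X, coeff_zero_C, zero_add, Polynomial.coeff_X_pow_self]
      simp
    have h3 := ordGe_of_mul (tr_ne_zero _ hf1) hM hy'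
    simp only [map_zero, mul_zero, add_zero] at h3
    have hpos : 0 < E * e := Nat.mul_pos (by omega) (by omega)
    have h4 := ih (D - E * e) (by omega) (M - s') f1 hf1 h2 h3
    rw [Nat.cast_sub h1] at h4
    have h5 : (M : ℝ) ≤ ((M - s' : ℕ) : ℝ) + s' := by exact_mod_cast (by omega : M ≤ M - s' + s')
    have h6 : c * E * M ≤ c * E * (((M - s' : ℕ) : ℝ) + s') :=
      mul_le_mul_of_nonneg_left h5 (by positivity)
    have h7 : E * (c * s') ≤ E * (e * s) := mul_le_mul_of_nonneg_left hce hEpos.le
    push_cast at h4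
    nlinarith
  · have hD' : DegLe (E * e) (e * D) (res (Polynomial.X ^ (E * e)) f) := by
      intro a' b' h
      have h' : cf (res (Polynomial.C 1 * Polynomial.X ^ (E * e)) f) a' b' ≠ 0 := by simpa using h
      obtain ⟨a, b, h1, rfl, rfl⟩ := cf_res h'
      have h2 := hD a b h1
      rw [degree_eq_tail] at h2
      have h3 : e * (b + E * (a 0 + a.tail.degree)) ≤ e * D := Nat.mul_le_mul_left _ h2
      have h4 : b ≤ e * b := Nat.le_mul_of_pos_left _ (by omega)
      nlinarith
    have hM' : OrdGe s' ⌈(s' * M : ℝ) / s⌉₊ (tr γ (res (Polynomial.X ^ (E * e)) f)) := by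
      intro a' b' h
      rw [tr_res γ _ (Polynomial.X ^ s')] at h
      have h' : cf (res (Polynomial.C (-1) * Polynomial.X ^ s')
          (tr (Fin.cons (Polynomial.X ^ (E * e) + Polynomial.X ^ s') γ :
            Fin (n + 1) → Polynomial K) f)) a' b' ≠ 0 := by simpa using h
      obtain ⟨a, b, h1, rfl, rfl⟩ := cf_res h'
      have h2 := hM a b h1
      rw [degree_eq_tail] at h2
      rw [Nat.ceil_le, div_le_iff₀ hspos]
      have h3 : s' * M ≤ s' * (b + s * (a 0 + a.tail.degree)) := Nat.mul_le_mul_left _ h2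
      have h4 : s' * b ≤ s * b := Nat.mul_le_mul_right _ hs
      have h5 : s' * M ≤ (b + s' * a 0 + s' * a.tail.degree) * s := by nlinarith
      exact_mod_cast h5
    have h1 := hγ _ _ _ h0 hD' hM'
    have h2 : (s' * M : ℝ) ≤ (⌈(s' * M : ℝ) / s⌉₊ : ℝ) * s := by
      rw [← div_le_iff₀ hspos]
      exact Nat.le_ceil _
    push_cast at h1
    have h3 : (e * s' : ℝ) * (c * E * M) ≤ (e * s') * (D * s) := by
      have h4 : c * E * e * (s' * M) ≤ c * E * e * ((⌈(s' * M : ℝ) / s⌉₊ : ℝ) * s) :=
        mul_le_mul_of_nonneg_left h2 (by positivity)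
      have h5 : c * (E * e) * (⌈(s' * M : ℝ) / s⌉₊ : ℝ) * s ≤ e * D * s' * s :=
        mul_le_mul_of_nonneg_right h1 hspos.le
      nlinarith
    exact le_of_mul_le_mul_left h3 (by positivity)

/-- the rounding choice of the contact orders -/
lemma key_of_bound {k : ℕ} (hk : 1 ≤ k) {c : ℝ} (hc : (k : ℝ) ≤ c) :
    ∀ (n j s : ℕ), c ^ (n + 1) * k ^ j + ∑ i ∈ Finset.range n, (c / k) ^ (i + 1) ≤ s →
      Key K n (k ^ j) s c := by
  have hkpos : (0 : ℝ) < k := by exact_mod_cast (by omega : 0 < k)
  have hcpos : 0 < c := lt_of_lt_of_le hkpos hc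
  have hq : 1 ≤ c / k := by rw [le_div_iff₀ hkpos]; linarith
  intro n
  induction n with
  | zero =>
    intro j s h
    apply key_zero
    simpa using h
  | succ n ih =>
    intro j s h
    set B : ℝ := c ^ (n + 1) * k ^ (j + 1) + ∑ i ∈ Finset.range n, (c / k) ^ (i + 1) with hB
    have hBpos : 0 < B := by
      have : 0 ≤ ∑ i ∈ Finset.range n, (c / k) ^ (i + 1) :=
        Finset.sum_nonneg fun i _ => by positivity
      have h2 : 0 < c ^ (n + 1) * k ^ (j + 1) := by positivity
      linarith
    have h1 : (⌈B⌉₊ : ℝ) ≤ B + 1 := (Nat.ceil_lt_add_one hBpos.le).le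
    have h2 : c / k * (B + 1) = c ^ (n + 1 + 1) * k ^ j +
        ∑ i ∈ Finset.range (n + 1), (c / k) ^ (i + 1) := by
      rw [hB, Finset.sum_range_succ', mul_add, mul_add, Finset.mul_sum]
      have h3 : ∑ i ∈ Finset.range n, c / k * (c / k) ^ (i + 1) =
          ∑ i ∈ Finset.range n, (c / k) ^ (i + 1 + 1) :=
        Finset.sum_congr rfl fun i _ => by ring
      have h4 : c / k * (c ^ (n + 1) * k ^ (j + 1)) = c ^ (n + 1 + 1) * k ^ j := by
        field_simp
        ring
      rw [h3, h4]
      ring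
    have h3 : c / k * (⌈B⌉₊ : ℝ) ≤ s := by
      calc c / k * (⌈B⌉₊ : ℝ) ≤ c / k * (B + 1) := mul_le_mul_of_nonneg_left h1 (by positivity)
        _ ≤ s := by rw [h2]; exact h
    have h4 : (⌈B⌉₊ : ℝ) ≤ s := by
      have : (0 : ℝ) ≤ ⌈B⌉₊ := Nat.cast_nonneg _
      nlinarith
    refine key_succ (e := k) (s' := ⌈B⌉₊) hcpos.le (Nat.one_le_pow _ _ (by omega)) hk
      (Nat.ceil_pos.2 hBpos) (by exact_mod_cast h4) ?_ ?_
    · rw [div_mul_eq_mul_div, div_le_iff₀ hkpos] at h3
      linarith
    · rw [← pow_succ]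
      exact ih _ _ (Nat.le_ceil _)

/-- the integral choice of the contact orders -/
lemma key_int {k : ℕ} (hk : 1 ≤ k) :
    ∀ (n j s : ℕ), k ^ (n + j + 1) ≤ s → Key K n (k ^ j) s k := by
  intro n
  induction n with
  | zero =>
    intro j s h
    apply key_zero
    rw [zero_add, pow_succ'] at h
    exact_mod_cast h
  | succ n ih =>
    intro j s h
    refine key_succ (e := k) (s' := k ^ (n + 1 + j + 1)) (Nat.cast_nonneg _)
      (Nat.one_le_pow _ _ (by omega)) hk (Nat.one_le_pow _ _ (by omega)) h ?_ ?_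
    · exact mul_le_mul_of_nonneg_left (by exact_mod_cast h) (Nat.cast_nonneg _)
    · rw [← pow_succ]
      apply ih
      rw [show n + (j + 1) + 1 = n + 1 + j + 1 by ring]

/-- the explicit bound -/
lemma key_explicit {k n r : ℕ} (hk : 1 ≤ k) (h1 : k ^ (n + 1) ≤ r) (h2 : r ≤ (k + 1) ^ (n + 1)) :
    ∃ c : ℝ, 0 ≤ c ∧
      (r : ℝ) - ∑ i ∈ Finset.range n, (1 + 1 / (k : ℝ)) ^ (i + 1) ≤ c ^ (n + 1) ∧
      Key K n 1 r c := by
  have hkpos : (0 : ℝ) < k := by exact_mod_cast (by omega : 0 < k)
  set S : ℝ := ∑ i ∈ Finset.range n, (1 + 1 / (k : ℝ)) ^ (i + 1) with hS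
  have hS0 : 0 ≤ S := Finset.sum_nonneg fun i _ => by positivity
  by_cases h : (r : ℝ) - S ≤ (k : ℝ) ^ (n + 1)
  · refine ⟨k, hkpos.le, h, ?_⟩
    simpa using key_int (K := K) hk n 0 r (by simpa using h1)
  · push Not at h
    have hpos : 0 ≤ (r : ℝ) - S := le_trans (by positivity) h.le
    set c : ℝ := ((r : ℝ) - S) ^ ((n + 1 : ℕ) : ℝ)⁻¹ with hc
    have hc0 : 0 ≤ c := Real.rpow_nonneg hpos _
    have hcN : c ^ (n + 1) = r - S := Real.rpow_inv_natCast_pow hpos (by omega)
    have hkc : (k : ℝ) ≤ c := by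
      apply le_of_pow_le_pow_left₀ (n := n + 1) (by omega) hc0
      rw [hcN]
      exact h.le
    have hck : c ≤ k + 1 := by
      apply le_of_pow_le_pow_left₀ (n := n + 1) (by omega) (by positivity)
      rw [hcN]
      have : (r : ℝ) ≤ ((k : ℝ) + 1) ^ (n + 1) := by exact_mod_cast h2
      linarith
    refine ⟨c, hc0, hcN.ge, ?_⟩
    have h3 := key_of_bound (K := K) hk hkc n 0 r (by
      rw [hcN, pow_zero, mul_one]
      have : ∑ i ∈ Finset.range n, (c / k) ^ (i + 1) ≤ S := by
        refine Finset.sum_le_sum fun i _ => ?_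
        apply pow_le_pow_left₀ (by positivity)
        rw [div_le_iff₀ hkpos]
        field_simp
        linarith
      linarith)
    simpa using h3

end Pool.Agent.MP_5499e5_ag

end

section

set_option autoImplicit false

namespace Pool.Agent.MP_5499e5_ag

open MvPolynomial

variable {K : Type*} [Field K]

/-- semicontinuity: a family of linear conditions with trivial solution space at one point has
trivial solution space off a hypersurface -/
lemma semicont {V S κ : Type*} [AddCommGroup V] [Module K V] [FiniteDimensional K V]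
    [CommRing S] [Algebra K S] (Λ : κ → V →ₗ[K] S) (ev0 : S →ₐ[K] K)
    (h : ∀ v, (∀ i, ev0 (Λ i v) = 0) → v = 0) :
    ∃ F : S, ev0 F ≠ 0 ∧ ∀ ev : S →ₐ[K] K, ev F ≠ 0 → ∀ v, (∀ i, ev (Λ i v) = 0) → v = 0 := by
  classical
  let b := Module.finBasis K V
  let φ : κ → V →ₗ[K] K := fun i => ev0.toLinearMap.comp (Λ i)
  have h1 : ∀ l, b.coord l ∈ Submodule.span K (Set.range φ) := by
    intro l
    apply FiniteDimensional.mem_span_of_iInf_ker_le_ker
    intro v hv
    rw [Submodule.mem_iInf] at hv
    have : v = 0 := h v fun i => hv i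
    simp [this]
  choose c hc using fun l => Finsupp.mem_span_range_iff_exists_finsupp.1 (h1 l)
  let Ψ : Fin (Module.finrank K V) → V →ₗ[K] S := fun l => (c l).sum fun i a => a • Λ i
  have hΨ : ∀ (ev : S →ₐ[K] K) l v, ev (Ψ l v) = (c l).sum fun i a => a * ev (Λ i v) := by
    intro ev l v
    simp only [Ψ, Finsupp.sum, LinearMap.coe_sum, Finset.sum_apply, LinearMap.smul_apply, map_sum,
      map_smul, smul_eq_mul]
  let A : Matrix (Fin (Module.finrank K V)) (Fin (Module.finrank K V)) S :=
    Matrix.of fun l l' => Ψ l (b l')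
  have hA0 : ev0.toRingHom.mapMatrix A = 1 := by
    ext l l'
    have h2 := congrArg (fun ψ : V →ₗ[K] K => ψ (b l')) (hc l)
    simp only [Finsupp.sum, LinearMap.coe_sum, Finset.sum_apply, LinearMap.smul_apply,
      smul_eq_mul, φ, LinearMap.comp_apply, AlgHom.toLinearMap_apply, Module.Basis.coord_apply,
      Module.Basis.repr_self] at h2
    have h3 := hΨ ev0 l (b l')
    simp only [RingHom.mapMatrix_apply, Matrix.map_apply, A, Matrix.of_apply,
      AlgHom.toRingHom_eq_coe, RingHom.coe_coe]
    rw [h3, Finsupp.sum, h2, Finsupp.single_apply, Matrix.one_apply]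
    simp [eq_comm]
  refine ⟨A.det, ?_, fun ev hev v hv => ?_⟩
  · have := RingHom.map_det ev0.toRingHom A
    rw [hA0, Matrix.det_one] at this
    have h2 : ev0 A.det = 1 := this
    rw [h2]
    exact one_ne_zero
  · have h2 : (ev.toRingHom.mapMatrix A).det ≠ 0 := by
      rw [← RingHom.map_det]
      exact hev
    have h3 : (ev.toRingHom.mapMatrix A).mulVec (b.repr v) = 0 := by
      funext l
      have h4 : ev (Ψ l v) = 0 := by
        rw [hΨ]
        simp [hv, Finsupp.sum]
      have h5 : Ψ l v = ∑ l', b.repr v l' • Ψ l (b l') := by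
        conv_lhs => rw [← b.sum_repr v]
        simp only [map_sum, map_smul]
      rw [h5, map_sum] at h4
      simp only [Matrix.mulVec, dotProduct, RingHom.mapMatrix_apply, Matrix.map_apply, A,
        Matrix.of_apply, AlgHom.toRingHom_eq_coe, RingHom.coe_coe, Pi.zero_apply]
      rw [← h4]
      refine Finset.sum_congr rfl fun l' _ => ?_
      rw [map_smul, smul_eq_mul, mul_comm]
    have h4 := Matrix.eq_zero_of_mulVec_eq_zero h2 h3
    apply b.repr.injective
    rw [map_zero]
    ext l
    exact congrFun h4 l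

variable {σ : Type*}

/-- translation of polynomials -/
noncomputable def shift (P : σ → K) : MvPolynomial σ K →ₐ[K] MvPolynomial σ K :=
  aeval fun i => X i + C (P i)

lemma shift_shift (P : σ → K) (f : MvPolynomial σ K) : shift (-P) (shift P f) = f := by
  have : (shift (-P)).comp (shift P) = AlgHom.id _ _ := by
    ext1 j
    simp [shift]
  exact congrArg (fun φ => φ f) this

lemma mem_pow_map {A B : Type*} [CommRing A] [CommRing B] (φ : A →+* B) {I : Ideal A}
    {J : Ideal B} (h : ∀ x ∈ I, φ x ∈ J) {m : ℕ} {f : A} (hf : f ∈ I ^ m) : φ f ∈ J ^ m := by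
  have h1 : I.map φ ≤ J := Ideal.map_le_iff_le_comap.2 h
  have h2 : φ f ∈ (I ^ m).map φ := Ideal.mem_map_of_mem _ hf
  rw [Ideal.map_pow] at h2
  exact Ideal.pow_right_mono h1 m h2

lemma mem_ker_pow_iff (P : σ → K) (m : ℕ) (f : MvPolynomial σ K) :
    f ∈ (RingHom.ker (eval P)) ^ m ↔ ∀ α : σ →₀ ℕ, α.degree < m → (shift P f).coeff α = 0 := by
  rw [← mem_pow_idealOfVars_iff']
  constructor
  · intro hf
    refine mem_pow_map (shift P).toRingHom (fun x hx => ?_) hf
    rw [← pow_one (idealOfVars σ K), mem_pow_idealOfVars_iff']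
    intro α hα
    have h0 : α = 0 := by
      rw [← Finsupp.degree_eq_zero_iff]
      omega
    subst h0
    have h1 : constantCoeff.comp (shift P).toRingHom = eval P := by
      apply MvPolynomial.ringHom_ext
      · intro a
        simp [shift]
      · intro i
        simp [shift]
    have h2 : eval P x = 0 := hx
    rw [← h1] at h2
    exact h2
  · intro hf
    rw [← shift_shift P f]
    refine mem_pow_map (shift (-P)).toRingHom (fun x hx => ?_) hf
    have h1 : idealOfVars σ K ≤ (RingHom.ker (eval P)).comap (shift (-P)).toRingHom := by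
      rw [Ideal.span_le]
      rintro _ ⟨i, rfl⟩
      simp [shift, RingHom.mem_ker]
    exact h1 hx

/-- if no form of degree `d` vanishes to order `m` at one configuration of `r` points, the same
holds for a general configuration -/
lemma generic [Finite σ] {r d m : ℕ} (P0 : Fin r → σ → K)
    (h : ∀ f : MvPolynomial σ K, f.IsHomogeneous d →
      (∀ j, f ∈ (RingHom.ker (eval (P0 j))) ^ m) → f = 0) :
    ∃ F : MvPolynomial (Fin r × σ) K, F ≠ 0 ∧ ∀ P : Fin r → σ → K,
      eval (fun q : Fin r × σ => P q.1 q.2) F ≠ 0 → ∀ f : MvPolynomial σ K, f.IsHomogeneous d →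
        (∀ j, f ∈ (RingHom.ker (eval (P j))) ^ m) → f = 0 := by
  let S := MvPolynomial (Fin r × σ) K
  let V := homogeneousSubmodule σ K d
  have : FiniteDimensional K V := Module.Finite.iff_fg.2 (homogeneousSubmodule_fg σ K d)
  let T : Fin r → MvPolynomial σ K →ₐ[K] MvPolynomial σ S :=
    fun j => aeval fun i => X i + C (X (j, i))
  let Λ : Fin r × {α : σ →₀ ℕ // α.degree < m} → V →ₗ[K] S := fun i =>
    ((lcoeff S i.2.1).restrictScalars K).comp ((T i.1).toLinearMap.comp V.subtype)
  have hT : ∀ (P : Fin r → σ → K) (j : Fin r) (f : MvPolynomial σ K) (α : σ →₀ ℕ),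
      aeval (fun q : Fin r × σ => P q.1 q.2) ((T j f).coeff α) = (shift (P j) f).coeff α := by
    intro P j f α
    have h1 : (MvPolynomial.map
        (aeval (fun q : Fin r × σ => P q.1 q.2) : S →ₐ[K] K).toRingHom).comp (T j).toRingHom =
        (shift (P j)).toRingHom := by
      apply MvPolynomial.ringHom_ext
      · intro a
        simp [shift, T, S]
      · intro i
        simp [shift, T, S]
    have h2 := congrArg (fun φ => (φ f).coeff α) h1
    simp only [RingHom.comp_apply, coeff_map] at h2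
    exact h2
  obtain ⟨F, hF0, hF⟩ := semicont Λ (aeval (fun q : Fin r × σ => P0 q.1 q.2)) (by
    intro v hv
    apply Subtype.ext
    apply h v.1 v.2
    intro j
    rw [mem_ker_pow_iff]
    intro α hα
    rw [← hT P0 j]
    exact hv (j, ⟨α, hα⟩))
  refine ⟨F, fun h0 => hF0 (by rw [h0, map_zero]), fun P hP f hf hv => ?_⟩
  have := hF (aeval (fun q : Fin r × σ => P q.1 q.2)) (by rwa [aeval_eq_eval]) ⟨f, hf⟩ (by
    rintro ⟨j, α, hα⟩
    have h1 := (mem_ker_pow_iff _ _ _).1 (hv j) α hα
    rw [← hT P j] at h1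
    exact h1)
  exact congrArg Subtype.val this

end Pool.Agent.MP_5499e5_ag

end

section

set_option autoImplicit false

namespace Pool.Agent.MP_5499e5_ag

open MvPolynomial

variable {K : Type*} [Field K] {n : ℕ}

/-- dehomogenisation `x_0 ↦ 1`, `x_1 ↦ t`, `x_{j+2} ↦ x_j` -/
noncomputable def deh : MvPolynomial (Fin (n + 2)) K →ₐ[K] RR K n :=
  aeval (Fin.cons 1 (Fin.cons (C Polynomial.X) X : Fin (n + 1) → RR K n) : Fin (n + 2) → RR K n)

lemma deh_monomial (α : Fin (n + 2) →₀ ℕ) (c : K) :
    deh (monomial α c) = monomial α.tail.tail (Polynomial.monomial (α.tail 0) c) := by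
  unfold deh
  rw [aeval_monomial, Finsupp.prod_fintype _ _ (by simp), Fin.prod_univ_succ, Fin.prod_univ_succ,
    monomial_eq, Finsupp.prod_fintype _ _ (by simp), ← Polynomial.C_mul_X_pow_eq_monomial]
  simp [Finsupp.tail_apply, mul_assoc, MvPolynomial.algebraMap_apply]

lemma cf_deh (f : MvPolynomial (Fin (n + 2)) K) (a : Fin n →₀ ℕ) (b : ℕ) :
    cf (deh f) a b =
      ∑ α ∈ f.support, if α.tail.tail = a ∧ α.tail 0 = b then f.coeff α else 0 := by
  conv_lhs => rw [f.as_sum, map_sum]
  unfold cf
  rw [coeff_sum, Polynomial.finsetSum_coeff]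
  refine Finset.sum_congr rfl fun α _ => ?_
  rw [deh_monomial, coeff_monomial]
  by_cases h1 : α.tail.tail = a
  · simp [h1, Polynomial.coeff_monomial]
  · simp [h1]

lemma degree_of_homog {f : MvPolynomial (Fin (n + 2)) K} {d : ℕ} (hf : f.IsHomogeneous d)
    {α : Fin (n + 2) →₀ ℕ} (hα : α ∈ f.support) :
    α 0 + (α.tail 0 + α.tail.tail.degree) = d := by
  rw [← degree_eq_tail, ← degree_eq_tail]
  by_contra h
  exact (mem_support_iff.1 hα) (hf.coeff_eq_zero h)

lemma degLe_deh {f : MvPolynomial (Fin (n + 2)) K} {d : ℕ} (hf : f.IsHomogeneous d) :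
    DegLe 1 d (deh f) := by
  intro a b h
  rw [cf_deh] at h
  obtain ⟨α, hα, h1⟩ := Finset.exists_ne_zero_of_sum_ne_zero h
  split_ifs at h1 with h2
  · obtain ⟨rfl, rfl⟩ := h2
    have := degree_of_homog hf hα
    omega
  · simp at h1

lemma deh_ne_zero {f : MvPolynomial (Fin (n + 2)) K} {d : ℕ} (hf : f.IsHomogeneous d)
    (h0 : f ≠ 0) : deh f ≠ 0 := by
  obtain ⟨β, hβ⟩ := support_nonempty.2 h0
  have h1 : cf (deh f) β.tail.tail (β.tail 0) = f.coeff β := by
    rw [cf_deh, Finset.sum_eq_single β]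
    · simp
    · intro α hα hne
      rw [if_neg]
      rintro ⟨h2, h3⟩
      apply hne
      have h4 := degree_of_homog hf hα
      have h5 := degree_of_homog hf hβ
      rw [h2, h3] at h4
      have h6 : α 0 = β 0 := by omega
      have h7 : α.tail = β.tail := by
        rw [← Finsupp.cons_tail α.tail, ← Finsupp.cons_tail β.tail, h2, h3]
      rw [← Finsupp.cons_tail α, ← Finsupp.cons_tail β, h6, h7]
    · intro h
      exact absurd hβ h
  intro h
  rw [h] at h1
  apply mem_support_iff.1 hβ
  rw [← h1]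
  simp [cf]

/-- vanishing to order `m` at a point of the `t` axis -/
lemma dvd_coeff_of_mem_pow (t0 : K) {m : ℕ} {g : RR K n}
    (hg : g ∈ (RingHom.ker ((Polynomial.evalRingHom t0).comp
      (constantCoeff : RR K n →+* Polynomial K))) ^ m) (a : Fin n →₀ ℕ) :
    (Polynomial.X - Polynomial.C t0) ^ (m - a.degree) ∣ coeff a g := by
  classical
  induction hg using Submodule.pow_induction_on_left' generalizing a with
  | algebraMap r => simp
  | add x y i hx hy ihx ihy =>
    rw [coeff_add]
    exact dvd_add (ihx a) (ihy a)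
  | mem_mul y hy i x hx ih =>
    rw [coeff_mul]
    refine Finset.dvd_sum fun p hp => ?_
    have h1 : p.1.degree + p.2.degree = a.degree := by
      rw [← map_add, Finset.HasAntidiagonal.mem_antidiagonal.1 hp]
    by_cases h2 : p.1 = 0
    · have h3 : (Polynomial.X - Polynomial.C t0) ∣ coeff p.1 y := by
        rw [h2, Polynomial.dvd_iff_isRoot]
        exact hy
      have h4 := mul_dvd_mul h3 (ih p.2)
      rw [← pow_succ'] at h4
      refine (pow_dvd_pow _ ?_).trans h4
      omega
    · have h3 : p.1.degree ≠ 0 := by rwa [Ne, Finsupp.degree_eq_zero_iff]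
      refine Dvd.dvd.mul_left ((pow_dvd_pow _ ?_).trans (ih p.2)) _
      omega

/-- the point of the curve with parameter `t0` -/
noncomputable def pt (γ : Fin n → Polynomial K) (t0 : K) : Fin (n + 2) → K :=
  Fin.cons 1 (Fin.cons t0 fun i => (γ i).eval t0 : Fin (n + 1) → K)

lemma dvd_coeff_of_vanish (γ : Fin n → Polynomial K) (t0 : K) {m : ℕ}
    {f : MvPolynomial (Fin (n + 2)) K} (hf : f ∈ (RingHom.ker (eval (pt γ t0))) ^ m)
    (a : Fin n →₀ ℕ) :
    (Polynomial.X - Polynomial.C t0) ^ (m - a.degree) ∣ coeff a (tr γ (deh f)) := by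
  apply dvd_coeff_of_mem_pow
  refine mem_pow_map ((tr γ).toRingHom.comp deh.toRingHom) (fun x hx => ?_) hf
  have h1 : ((Polynomial.evalRingHom t0).comp (constantCoeff : RR K n →+* Polynomial K)).comp
      ((tr γ).toRingHom.comp deh.toRingHom) = eval (pt γ t0) := by
    apply MvPolynomial.ringHom_ext
    · intro c
      simp [tr, deh, MvPolynomial.algebraMap_apply]
    · intro i
      refine Fin.cases ?_ (fun i => ?_) i
      · simp [tr, deh, pt]
      · refine Fin.cases ?_ (fun i => ?_) i
        · simp [tr, deh, pt]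
        · simp [tr, deh, pt]
  have h2 : eval (pt γ t0) x = 0 := hx
  rw [← h1] at h2
  exact h2

/-- collision of the `r` points along the curve -/
lemma special [Infinite K] {r d m : ℕ} {c : ℝ} (hr : 1 ≤ r) (hK : Key K n 1 r c)
    (hd : (d : ℝ) < c * m) :
    ∃ P0 : Fin r → Fin (n + 2) → K, ∀ f : MvPolynomial (Fin (n + 2)) K, f.IsHomogeneous d →
      (∀ j, f ∈ (RingHom.ker (eval (P0 j))) ^ m) → f = 0 := by
  obtain ⟨γ, hγ⟩ := hK
  let u : Fin r → K := fun j => Infinite.natEmbedding K j
  have hu : Function.Injective u := (Infinite.natEmbedding K).injective.comp Fin.val_injective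
  let S := Polynomial K
  let V := homogeneousSubmodule (Fin (n + 2)) K d
  have : FiniteDimensional K V := Module.Finite.iff_fg.2 (homogeneousSubmodule_fg _ K d)
  let Q : Polynomial S := ∏ j, (Polynomial.X - Polynomial.C (Polynomial.C (u j) * Polynomial.X))
  have hQ : Q.Monic := Polynomial.monic_prod_of_monic _ _ fun j _ => Polynomial.monic_X_sub_C _
  let G : (Fin n →₀ ℕ) → V →ₗ[K] Polynomial K := fun a =>
    ((lcoeff (Polynomial K) a).restrictScalars K).comp
      ((((tr γ).restrictScalars K).comp deh).toLinearMap.comp V.subtype)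
  have hG : ∀ a (v : V), G a v = coeff a (tr γ (deh v.1)) := fun a v => rfl
  let Λ : (Fin n →₀ ℕ) × ℕ → V →ₗ[K] S := fun i =>
    ((Polynomial.lcoeff S i.2).restrictScalars K).comp
      (((Polynomial.modByMonicHom (Q ^ (m - i.1.degree))).restrictScalars K).comp
        ((Polynomial.mapAlgHom (Algebra.ofId K S)).toLinearMap.comp (G i.1)))
  have hΛ : ∀ (τ : K) (a : Fin n →₀ ℕ) (v : V),
      (∀ j, Polynomial.aeval τ (Λ (a, j) v) = 0) ↔
        (∏ j, (Polynomial.X - Polynomial.C (u j * τ))) ^ (m - a.degree) ∣ G a v := by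
    intro τ a v
    have h1 : ∀ j, Polynomial.aeval τ (Λ (a, j) v) =
        (((G a v).map (algebraMap K S) %ₘ (Q ^ (m - a.degree))).map
          (Polynomial.evalRingHom τ)).coeff j := by
      intro j
      rw [Polynomial.coeff_map, Polynomial.coe_aeval_eq_eval]
      rfl
    have h2 : Q.map (Polynomial.evalRingHom τ) = ∏ j, (Polynomial.X - Polynomial.C (u j * τ)) := by
      simp [Q, Polynomial.map_prod, S]
    have h3 : ((G a v).map (algebraMap K S)).map (Polynomial.evalRingHom τ) = G a v := by
      rw [Polynomial.map_map]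
      have : (Polynomial.evalRingHom τ).comp (algebraMap K S) = RingHom.id K := by
        ext c
        simp [S]
      rw [this, Polynomial.map_id]
    simp only [h1]
    rw [Polynomial.map_modByMonic _ (hQ.pow _), h3, Polynomial.map_pow, h2,
      ← Polynomial.modByMonic_eq_zero_iff_dvd
        ((Polynomial.monic_prod_of_monic _ _ fun j _ => Polynomial.monic_X_sub_C _).pow _),
      Polynomial.ext_iff]
    simp
  obtain ⟨F, hF0, hF⟩ := semicont Λ (Polynomial.aeval (0 : K)) (by
    intro v hv
    by_contra h0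
    have h1 : v.1 ≠ 0 := fun h => h0 (Subtype.ext h)
    have h2 : OrdGe r (r * m) (tr γ (deh v.1)) := by
      intro a b hab
      have h3 := (hΛ 0 a v).1 fun j => hv (a, j)
      simp only [mul_zero, map_zero, sub_zero, Finset.prod_const, Finset.card_univ,
        Fintype.card_fin, ← pow_mul] at h3
      rw [Polynomial.X_pow_dvd_iff, hG] at h3
      have h4 : r * (m - a.degree) ≤ b := by
        by_contra h5
        exact hab (h3 b (by omega))
      have h5 : m ≤ m - a.degree + a.degree := by omega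
      calc r * m ≤ r * (m - a.degree + a.degree) := Nat.mul_le_mul_left _ h5
        _ ≤ b + r * a.degree := by rw [mul_add]; omega
    have h3 := hγ d (r * m) _ (deh_ne_zero v.2 h1) (degLe_deh v.2) h2
    have h4 : (0 : ℝ) < r := by exact_mod_cast (by omega : 0 < r)
    push_cast at h3
    nlinarith)
  have hF1 : F * Polynomial.X ≠ 0 :=
    mul_ne_zero (fun h => hF0 (by rw [h, map_zero])) Polynomial.X_ne_zero
  obtain ⟨τ, hτ⟩ : ∃ τ : K, Polynomial.eval τ (F * Polynomial.X) ≠ 0 := by
    by_contra h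
    push Not at h
    exact hF1 (Polynomial.funext (by simpa using h))
  rw [Polynomial.eval_mul, Polynomial.eval_X] at hτ
  have hτ0 : τ ≠ 0 := right_ne_zero_of_mul hτ
  refine ⟨fun j => pt γ (u j * τ), fun f hf hv => ?_⟩
  have := hF (Polynomial.aeval τ) (by
    rw [Polynomial.coe_aeval_eq_eval]
    exact left_ne_zero_of_mul hτ) ⟨f, hf⟩ (by
    rintro ⟨a, j⟩
    refine (hΛ τ a ⟨f, hf⟩).2 ?_ j
    rw [← Finset.prod_pow]
    apply Finset.prod_dvd_of_coprime
    · intro i _ j _ hij
      apply IsCoprime.pow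
      exact Polynomial.pairwise_coprime_X_sub_C (s := fun j => u j * τ)
        (fun i j h => hu (mul_right_cancel₀ hτ0 h)) hij
    · intro j _
      exact dvd_coeff_of_vanish γ _ (hv j) a)
  exact congrArg Subtype.val this

end Pool.Agent.MP_5499e5_ag

end
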